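import Pool.Agent.MSP.Rea
import Pool.Agent.MSP.Grp

/-!
# Prime times of one-parameter flows on homogeneous spaces at almost every speed

Let `u` be a one-parameter subgroup of a locally compact group `G`, and let `x` be a point of `G/Γ`
whose continuous orbit is equidistributed for the probability measure `μ`. Then for almost every
`l > 0` the sequence `u(l p_n) x` over the primes `p_n` is equidistributed for `μ`.
-/

set_option autoImplicit false

open MeasureTheory Filter Topology Set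

namespace Pool.Agent.Results.MP_ffdc5d_an.AlmostEverySpeed

/-- The sequence `y` in `X` is equidistributed with respect to `μ`. -/
def Equidistributed {X : Type*} [TopologicalSpace X] [MeasurableSpace X] (μ : Measure X)
    (y : ℕ → X) : Prop :=
  ∀ f : X → ℝ, Continuous f → HasCompactSupport f →
    Tendsto (fun N : ℕ => 1 / (N : ℝ) * ∑ n ∈ Finset.range N, f (y n)) atTop (𝓝 (∫ z, f z ∂μ))

/-- The curve `c` in `X` is equidistributed with respect to `μ`. -/
def EquidistributedCurve {X : Type*} [TopologicalSpace X] [MeasurableSpace X] (μ : Measure X)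
    (c : ℝ → X) : Prop :=
  ∀ f : X → ℝ, Continuous f → HasCompactSupport f →
    Tendsto (fun T : ℝ => 1 / T * ∫ t in (0 : ℝ)..T, f (c t)) atTop (𝓝 (∫ z, f z ∂μ))

theorem result {G : Type*} [Group G] [TopologicalSpace G] [IsTopologicalGroup G]
    [LocallyCompactSpace G] [SecondCountableTopology G] (Γ : Subgroup G) [T2Space (G ⧸ Γ)]
    [MeasurableSpace (G ⧸ Γ)] [BorelSpace (G ⧸ Γ)] (μ : Measure (G ⧸ Γ)) [IsProbabilityMeasure μ]
    (u : ℝ → G) (hu : Continuous u) (hadd : ∀ s t, u (s + t) = u s * u t) (x : G ⧸ Γ)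
    (hx : EquidistributedCurve μ fun t => u t • x) :
    ∀ᵐ l : ℝ, 0 < l → Equidistributed μ fun n => u (l * (Nat.nth Nat.Prime n : ℕ)) • x := by
  obtain ⟨D, hDc, hD, hdense⟩ := Pool.MSP.exists_countable (G ⧸ Γ)
  have hint : ∀ f : G ⧸ Γ → ℝ, Continuous f → HasCompactSupport f → Integrable f μ :=
    fun f hf hc => hf.integrable_of_hasCompactSupport hc
  have h1 : ∀ f ∈ D, ∀ᵐ l : ℝ, 0 < l →
      Tendsto (fun N : ℕ => 1 / (N : ℝ) * ∑ i ∈ Finset.range N,
        f (u (l * (Nat.nth Nat.Prime i : ℕ)) • x)) atTop (𝓝 (∫ z, f z ∂μ)) := by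
    intro f hf
    obtain ⟨C, hC⟩ := (hD f hf).1.bounded_above_of_compact_support (hD f hf).2
    exact Pool.MSP.ae_speed_real (Pool.MSP.orbit_uc hu hadd x (hD f hf).1 (hD f hf).2)
      ⟨C, fun t => hC _⟩ (hx f (hD f hf).1 (hD f hf).2)
  have h2 := (ae_ball_iff hDc).2 h1
  filter_upwards [h2] with l hl hl0 f hf hc
  rw [Metric.tendsto_atTop]
  intro ε hε
  obtain ⟨g, hgD, hg⟩ := hdense f hf hc (ε / 4) (by positivity)
  have h3 := hl g hgD hl0
  rw [Metric.tendsto_atTop] at h3
  obtain ⟨N₀, hN₀⟩ := h3 (ε / 4) (by positivity)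
  refine ⟨N₀ + 1, fun N hN => ?_⟩
  have h4 := hN₀ N (by omega)
  have hNpos : (0 : ℝ) < N := by exact_mod_cast (by omega : 0 < N)
  rw [Real.dist_eq] at h4 ⊢
  have h5 : |1 / (N : ℝ) * ∑ i ∈ Finset.range N, f (u (l * (Nat.nth Nat.Prime i : ℕ)) • x) -
      1 / (N : ℝ) * ∑ i ∈ Finset.range N, g (u (l * (Nat.nth Nat.Prime i : ℕ)) • x)| ≤ ε / 4 := by
    rw [← mul_sub, ← Finset.sum_sub_distrib, abs_mul, abs_of_pos (by positivity)]
    calc 1 / (N : ℝ) * |∑ i ∈ Finset.range N, (f (u (l * (Nat.nth Nat.Prime i : ℕ)) • x) -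
          g (u (l * (Nat.nth Nat.Prime i : ℕ)) • x))|
        ≤ 1 / (N : ℝ) * ∑ i ∈ Finset.range N, (ε / 4) := by
          gcongr
          exact (Finset.abs_sum_le_sum_abs _ _).trans (Finset.sum_le_sum fun i _ => hg _)
      _ = ε / 4 := by
          rw [Finset.sum_const, Finset.card_range, nsmul_eq_mul]
          field_simp
  have h6 : |(∫ z, f z ∂μ) - ∫ z, g z ∂μ| ≤ ε / 4 := by
    rw [← integral_sub (hint f hf hc) (hint g (hD g hgD).1 (hD g hgD).2)]
    calc |∫ z, (f z - g z) ∂μ| ≤ ∫ z, (ε / 4) ∂μ := by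
          rw [← Real.norm_eq_abs]
          exact norm_integral_le_of_norm_le (integrable_const _)
            (Eventually.of_forall fun z => hg z)
      _ = ε / 4 := by simp
  rw [abs_lt] at h4 ⊢
  rw [abs_le] at h5 h6
  constructor <;> linarith [h4.1, h4.2, h5.1, h5.2, h6.1, h6.2]

end Pool.Agent.Results.MP_ffdc5d_an.AlmostEverySpeed
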